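import Pool.Agent.H14.Osi3

set_option autoImplicit false
open MeasureTheory Module
open Pool.Agent.H14.Osi

namespace Pool.Agent.Results.MP_082b65_an.Q1

lemma low {d k : ℕ} (Ω : Matrix (Fin d) (Fin k) ℝ) (j : Fin d) (ρ l : ℝ) (hρ : 1 ≤ ρ)
    (hl : ρ * l ≤ 1) (h : ∀ x : Fin k → ℝ, Ω.mulVec x j ^ 2 ≤ l * ∑ i', Ω.mulVec x i' ^ 2) :
    (d : ℝ) - 1 - k + (ρ - 1) / 4 ≤ ∑ i, ∑ i', (Matrix.diagonal (fun i => if i = j then ρ else 1) -
      rsvd (Matrix.diagonal (fun i => if i = j then ρ else 1)) Ω) i i' ^ 2 := by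
  set A : Matrix (Fin d) (Fin d) ℝ := Matrix.diagonal (fun i => if i = j then ρ else 1) with hA
  obtain ⟨l', h0, h1, h2, h3⟩ := lev' (A * Ω)
  have hk : ((A * Ω).rank : ℝ) ≤ k := by exact_mod_cast Matrix.rank_le_width _
  have hc : ∀ i', (1 - l' i') + (if i' = j then (ρ - 1) / 4 - 1 else 0) ≤
      ∑ i, (A - rsvd A Ω) i i' ^ 2 := by
    intro i'
    obtain ⟨x, hx⟩ := rsvd_mem A Ω i'
    simp only [Matrix.sub_apply, hx]
    split_ifs with hi
    · subst hi
      set u := Ω.mulVec x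
      have e1 : ∀ i, (A i i' - (A * Ω).mulVec x i) ^ 2 =
          u i ^ 2 + if i = i' then ρ ^ 2 * (1 - u i') ^ 2 - u i' ^ 2 else 0 := by
        intro i
        rw [← Matrix.mulVec_mulVec, hA, Matrix.mulVec_diagonal, Matrix.diagonal_apply]
        split_ifs with h
        · subst h; ring
        · ring
      simp only [e1, Finset.sum_add_distrib, Finset.sum_ite_eq', Finset.mem_univ, if_true]
      have e2 := h x
      have e3 : u i' ^ 2 ≤ ∑ i, u i ^ 2 :=
        Finset.single_le_sum (f := fun i => u i ^ 2) (fun i _ => sq_nonneg _) (Finset.mem_univ _)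
      have e4 : ρ * u i' ^ 2 ≤ ∑ i, u i ^ 2 := by
        have := mul_le_mul_of_nonneg_left e2 (show 0 ≤ ρ by linarith)
        nlinarith [sq_nonneg (u i')]
      have := h0 i'
      rcases le_total (u i') (1 / 2) with h5 | h5
      · have h6 : 1 / 4 ≤ (1 - u i') ^ 2 := by nlinarith
        have h7 : ρ ≤ ρ ^ 2 := by nlinarith
        nlinarith [mul_le_mul h7 h6 (by norm_num) (by positivity)]
      · have h6 : 1 / 4 ≤ u i' ^ 2 := by nlinarith
        nlinarith [mul_le_mul_of_nonneg_left h6 (show 0 ≤ ρ - 1 by linarith),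
          mul_nonneg (sq_nonneg ρ) (sq_nonneg (1 - u i'))]
    · have := col ((A * Ω).mulVec x) i' 1 (l' i') (h0 _) (h3 x i')
      have e1 : ∀ i, A i i' = if i = i' then 1 else 0 := by
        intro i
        rw [hA, Matrix.diagonal_apply]
        split_ifs with h h'
        · exact absurd (h ▸ h') hi
        · rfl
        · rfl
      simp only [e1]
      linarith
  have := Finset.sum_le_sum fun i' (_ : i' ∈ Finset.univ) => hc i'
  rw [Finset.sum_comm] at this
  simp only [Finset.sum_add_distrib, Finset.sum_sub_distrib, Finset.sum_ite_eq', Finset.mem_univ,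
    if_true, h2, Finset.sum_const, Finset.card_univ, Fintype.card_fin, nsmul_eq_mul] at this
  linarith

lemma best {d : ℕ} (j : Fin d) (ρ : ℝ) (hρ : 1 ≤ ρ) (B : Matrix (Fin d) (Fin d) ℝ)
    (hB : B.rank ≤ 1) : (d : ℝ) - 1 ≤
      ∑ i, ∑ i', (Matrix.diagonal (fun i => if i = j then ρ else 1) - B) i i' ^ 2 := by
  obtain ⟨l, h0, h1, h2, h3⟩ := lev' B
  have hk : (B.rank : ℝ) ≤ 1 := by exact_mod_cast hB
  have hc : ∀ i', 1 - l i' ≤
      ∑ i, (Matrix.diagonal (fun i => if i = j then ρ else 1) - B) i i' ^ 2 := by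
    intro i'
    have := col (B.mulVec (Pi.single i' 1)) i' (if i' = j then ρ else 1) (l i') (h0 _) (h3 _ i')
    have e1 : ∀ i, (Matrix.diagonal (fun i => if i = j then ρ else 1) - B) i i' =
        (if i = i' then (if i' = j then ρ else 1) else 0) - B.mulVec (Pi.single i' 1) i := by
      intro i
      rw [Matrix.sub_apply, Matrix.diagonal_apply]
      by_cases h : i = i' <;> simp [h]
    simp only [e1]
    refine le_trans ?_ this
    have h4 : 1 ≤ (if i' = j then ρ else 1) ^ 2 := by split_ifs <;> nlinarith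
    nlinarith [h1 i']
  have := Finset.sum_le_sum fun i' (_ : i' ∈ Finset.univ) => hc i'
  rw [Finset.sum_comm] at this
  simp only [Finset.sum_sub_distrib, h2, Finset.sum_const, Finset.card_univ, Fintype.card_fin,
    nsmul_eq_mul] at this
  linarith

theorem result : ¬ ∃ C c₀ ε₀ : ℝ, 0 < c₀ ∧ 0 < ε₀ ∧ ∀ (n d k r : ℕ), 1 ≤ r → r ≤ d →
    ∀ ε : ℝ, 0 < ε → ε < ε₀ → ∀ (A B : Matrix (Fin n) (Fin d) ℝ), B.rank ≤ r →
    (∀ B' : Matrix (Fin n) (Fin d) ℝ, B'.rank ≤ r → frob (A - B) ≤ frob (A - B')) →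
    ∀ (μ : Measure (Fin d → Fin k → ℝ)) [IsProbabilityMeasure μ], IsOSI μ r (1 - ε) (1 / 100) →
      ENNReal.ofReal c₀ ≤
        μ {ω | frob (A - rsvd A (Matrix.of ω)) ≤ (1 + C * ε) * frob (A - B)} := by
  classical
  rintro ⟨C, c₀, ε₀, hc, hε₀, H⟩
  obtain ⟨k, hk⟩ : ∃ k : ℕ, 16000000 ≤ k := ⟨_, le_rfl⟩
  have hk' : (16000000 : ℝ) ≤ k := by exact_mod_cast hk
  obtain ⟨d, hd⟩ := exists_nat_gt (16 * k * (k + 1) / c₀)
  rw [div_lt_iff₀ hc] at hd
  have hd0 : (0 : ℝ) < d := by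
    by_contra h
    nlinarith [mul_nonneg (neg_nonneg.2 (not_lt.1 h)) hc.le]
  have hd1 : 1 ≤ d := by exact_mod_cast hd0
  have hd1' : (1 : ℝ) ≤ d := by exact_mod_cast hd1
  set η := min 1 (c₀ / (48 * k)) with hη
  have hη0 : 0 < η := by positivity
  have hη1 : η ≤ 1 := min_le_left _ _
  have hη2 : η * (48 * k) ≤ c₀ := (le_div_iff₀ (by positivity)).1 (min_le_right _ _)
  set ε := min (ε₀ / 2) (η / (|C| + 1))
  have hε : 0 < ε := by positivity
  have hε1 : ε < ε₀ := (min_le_left _ _).trans_lt (by linarith)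
  have hε2 : ε * (|C| + 1) ≤ η := (le_div_iff₀ (by positivity)).1 (min_le_right _ _)
  have hCε : (1 + C * ε) ^ 2 ≤ 1 + 3 * η := by
    have h1 : |C * ε| ≤ η := by rw [abs_mul, abs_of_pos hε]; linarith
    obtain ⟨h2, h3⟩ := abs_le.1 h1
    nlinarith
  set ρ := c₀ * d / (2 * k) with hρ
  have hρk : ρ * (2 * k) = c₀ * d := div_mul_cancel₀ _ (by positivity)
  have hρ1 : 1 ≤ ρ := by rw [hρ, le_div_iff₀ (by positivity)]; nlinarith
  obtain ⟨μ, hμ, h1, h2⟩ := unif (sk d k)
  have hosi := sk_osi d k hk ε hε.le μ h1 h2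
  choose l hl0 hl1 hl2 hl3 using fun t => lev' (Matrix.of (sk d k t))
  set m : ℝ := ((Fintype.card (Fin 200 × (Fin k → Fin d → Bool)) : ℕ) : ℝ)
  have hm : 0 < m := Nat.cast_pos.2 Fintype.card_pos
  obtain ⟨j, -, hj⟩ : ∃ j ∈ (Finset.univ : Finset (Fin d)), ∑ t, l t j ≤ k * m / d := by
    refine Finset.exists_le_of_sum_le ⟨⟨0, hd1⟩, Finset.mem_univ _⟩ ?_
    rw [Finset.sum_comm]
    have : ∀ t, ∑ j, l t j ≤ k := fun t => by
      rw [hl2]; exact_mod_cast Matrix.rank_le_width _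
    refine (Finset.sum_le_sum fun t _ => this t).trans (le_of_eq ?_)
    simp only [Finset.sum_const, Finset.card_univ, Fintype.card_fin, nsmul_eq_mul]
    field_simp
    rfl
  set A : Matrix (Fin d) (Fin d) ℝ := Matrix.diagonal (fun i => if i = j then ρ else 1) with hA
  set B : Matrix (Fin d) (Fin d) ℝ :=
    Matrix.vecMulVec (Pi.single j ρ) (Pi.single j 1) with hB
  have hAB : ∑ i, ∑ i', (A - B) i i' ^ 2 = (d : ℝ) - 1 := by
    have : ∀ i, ∑ i', (A - B) i i' ^ 2 = 1 - if i = j then 1 else 0 := by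
      intro i
      rw [Finset.sum_eq_single i]
      · by_cases h : i = j <;> simp [hA, hB, h, Matrix.vecMulVec_apply]
      · intro b _ hb
        by_cases h : i = j
        · subst h; simp [hA, hB, Matrix.vecMulVec_apply, hb, hb.symm]
        · simp [hA, hB, Matrix.vecMulVec_apply, h, hb.symm]
      · simp
    simp only [this]
    simp [Finset.sum_sub_distrib]
  have h3 := H d d k 1 le_rfl hd1 ε hε hε1 A B (Matrix.rank_vecMulVec_le _ _) (fun B' hB' => by
    rw [frob, frob, hAB]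
    exact Real.sqrt_le_sqrt (best j ρ hρ1 B' hB')) μ hosi
  rw [ENNReal.ofReal_le_iff_le_toReal (measure_ne_top μ _), ← measureReal_def, h2,
    le_div_iff₀ hm] at h3
  have hpt : ∀ t, {ω : Fin d → Fin k → ℝ | frob (A - rsvd A (Matrix.of ω)) ≤
      (1 + C * ε) * frob (A - B)}.indicator (fun _ => (1 : ℝ)) (sk d k t) ≤ ρ * l t j := by
    intro t
    refine Set.indicator_apply_le' (fun h => ?_) fun _ => mul_nonneg (by linarith) (hl0 _ _)
    by_contra hcon
    have h4 := low (Matrix.of (sk d k t)) j ρ (l t j) hρ1 (not_le.1 hcon).le (fun x => hl3 t x j)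
    have h5 : frob (A - rsvd A (Matrix.of (sk d k t))) ^ 2 ≤ ((1 + C * ε) * frob (A - B)) ^ 2 :=
      pow_le_pow_left₀ (Real.sqrt_nonneg _) h 2
    rw [mul_pow, frob, frob, Real.sq_sqrt (by positivity), Real.sq_sqrt (by positivity), hAB] at h5
    have h6 := h4.trans h5
    have h7 := mul_le_mul_of_nonneg_right hCε (show (0 : ℝ) ≤ d - 1 by linarith)
    have h8 : (ρ - 1) / 4 ≤ k + 3 * η * d := by nlinarith
    have h9 := mul_le_mul_of_nonneg_right h8 (show (0 : ℝ) ≤ 16 * k by positivity)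
    nlinarith [mul_le_mul_of_nonneg_right hη2 hd0.le]
  have h4 := h3.trans (Finset.sum_le_sum fun t _ => hpt t)
  rw [← Finset.mul_sum] at h4
  have h5 := h4.trans (mul_le_mul_of_nonneg_left hj (by linarith))
  have h6 : ρ * (k * m / d) = c₀ * m / 2 := by rw [hρ]; field_simp
  rw [h6] at h5
  nlinarith [mul_pos hc hm]

end Pool.Agent.Results.MP_082b65_an.Q1
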