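import Pool.Agent.H14.Osi2

set_option autoImplicit false
open MeasureTheory Module
open Pool.Agent.H14.Osi

namespace Pool.Agent.Results.MP_082b65_an.Q2

theorem result : ∃ C : ℝ, ∀ (n d k r : ℕ), 1 ≤ r → r ≤ d → ∀ ε δ : ℝ, 0 < ε → ε ≤ 1 / 2 →
    δ ≤ ε ^ 2 → ∀ (A B : Matrix (Fin n) (Fin d) ℝ), B.rank ≤ r →
    ∀ (μ : Measure (Fin d → Fin k → ℝ)) [IsProbabilityMeasure μ], IsOSI μ r (1 - ε) δ →
      μ {ω | ¬ frob (A - rsvd A (Matrix.of ω)) ≤ (1 + C * ε) * frob (A - B)} ≤ 1 / 2 := by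
  refine ⟨40000, fun n d k r hr hrd ε δ hε hε2 hδ A B hB μ _ h => ?_⟩
  let row : Matrix (Fin n) (Fin d) ℝ → Fin n → EuclideanSpace ℝ (Fin d) :=
    fun M i => WithLp.toLp 2 (M i)
  obtain ⟨V, hV1, hV⟩ := exists_ext (LinearMap.range (Matrix.toEuclideanLin B.transpose)) r
    (by
      have := Matrix.rank_eq_finrank_range_toLin B.transpose
        (EuclideanSpace.basisFun (Fin d) ℝ).toBasis (EuclideanSpace.basisFun (Fin n) ℝ).toBasis
      rw [Matrix.toEuclideanLin_eq_toLin_orthonormal, ← this, Matrix.rank_transpose]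
      exact hB) (by simpa using hrd)
  have hBV : ∀ i, row B i ∈ V := fun i => hV1 ⟨EuclideanSpace.single i 1, by
    ext j; simp [row, Matrix.toLpLin_apply]⟩
  subst hV
  set y : Fin n → EuclideanSpace ℝ (Fin d) := fun i => row A i - V.starProjection (row A i)
  have hy : ∀ i, y i ∈ Vᗮ := fun i => V.sub_starProjection_mem_orthogonal _
  choose Z hZi hZ0 hZE hZ using fun i => exZ μ ε δ hε hε2 hδ V hr h (y i) (hy i)
  set S := ∑ i, ‖y i‖ ^ 2 with hS
  have hS0 : 0 ≤ S := by positivity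
  have hSB : S ≤ ∑ i, ∑ j, (A - B) i j ^ 2 := by
    refine Finset.sum_le_sum fun i _ => ?_
    have h2 : ∑ j, (A - B) i j ^ 2 = ‖row A i - row B i‖ ^ 2 := by rw [← sum_sq_eq]; rfl
    rw [h2]
    gcongr
    simp only [y]
    rw [Submodule.starProjection_minimal]
    exact ciInf_le ⟨0, by rintro _ ⟨x, rfl⟩; positivity⟩ (⟨_, hBV i⟩ : V)
  have hmain : ∀ ω ∈ good k (1 - ε) V,
      ∑ i, ∑ j, (A - rsvd A (Matrix.of ω)) i j ^ 2 ≤ S + ∑ i, Z i ω := by
    intro ω hω
    obtain ⟨L, hL1, hL2, hL3⟩ := exists_L (TT ω) V (fun x hx hx0 => by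
      have := hω x hx
      rw [hx0, norm_zero] at this
      have h3 : ‖x‖ ^ 2 ≤ 0 := by nlinarith [sq_nonneg ‖x‖]
      exact norm_eq_zero.1 (pow_eq_zero_iff two_ne_zero |>.1 (le_antisymm h3 (by positivity))))
    refine (rsvd_min A _ (Matrix.of fun c j => L (EuclideanSpace.single c 1) j)).trans ?_
    rw [hS, ← Finset.sum_add_distrib]
    refine Finset.sum_le_sum fun i _ => ?_
    have h1 : ∀ j, (A * Matrix.of ω * Matrix.of fun c j => L (EuclideanSpace.single c 1) j) i j =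
        L (TT ω (row A i)) j := by
      intro j
      have h2 : TT ω (row A i) = ∑ c, (TT ω (row A i) c) • EuclideanSpace.single c (1 : ℝ) := by
        ext c; simp [Pi.single_apply]
      rw [h2, map_sum]
      simp [Matrix.mul_apply, TT_apply, row, mul_comm]
    have h2 : L (TT ω (row A i)) = V.starProjection (row A i) + L (TT ω (y i)) := by
      simp only [y, map_sub, hL2 _ (V.starProjection_apply_mem _)]
      abel
    have h3 : ∑ j, (A - A * Matrix.of ω *
        Matrix.of fun c j => L (EuclideanSpace.single c 1) j) i j ^ 2 =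
        ‖y i - L (TT ω (y i))‖ ^ 2 := by
      rw [← sum_sq_eq]
      refine Finset.sum_congr rfl fun j _ => ?_
      rw [Matrix.sub_apply, h1, h2]
      simp only [y, row, PiLp.add_apply, PiLp.sub_apply]
      ring
    have h4 : inner ℝ (y i) (L (TT ω (y i))) = 0 := (V.mem_orthogonal' _).1 (hy i) _ (hL1 _)
    rw [h3, norm_sub_sq_real, h4]
    have := hZ i ω hω _ (hL1 (TT ω (y i))) (hL3 _)
    linarith
  have hint : Integrable (fun ω => ∑ i, Z i ω) μ := integrable_finsetSum _ fun i _ => hZi i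
  have hE : ∫ ω, ∑ i, Z i ω ∂μ ≤ 20000 * ε * S := by
    rw [integral_finsetSum _ fun i _ => hZi i, hS, Finset.mul_sum]
    exact Finset.sum_le_sum fun i _ => hZE i
  have hM : μ.real {ω | 80000 * ε * S < ∑ i, Z i ω} ≤ 1 / 4 := by
    rcases hS0.eq_or_lt with h0 | h0
    · have h1 : (fun ω => ∑ i, Z i ω) =ᵐ[μ] 0 :=
        (integral_eq_zero_iff_of_nonneg (fun ω => Finset.sum_nonneg fun i _ => hZ0 i ω) hint).1
          (le_antisymm (by rw [← h0] at hE; simpa using hE)
            (integral_nonneg fun ω => Finset.sum_nonneg fun i _ => hZ0 i ω))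
      have h2 : μ {ω | 80000 * ε * S < ∑ i, Z i ω} = 0 := by
        refine measure_mono_null (fun ω hω => ?_) (ae_iff.1 h1)
        rw [← h0] at hω
        simp only [mul_zero, Set.mem_setOf_eq] at hω
        exact hω.ne'
      rw [measureReal_def, h2]; norm_num
    · have h1 := mul_meas_ge_le_integral_of_nonneg
        (ae_of_all μ fun ω => Finset.sum_nonneg fun i _ => hZ0 i ω) hint (80000 * ε * S)
      have h2 : μ.real {ω | 80000 * ε * S < ∑ i, Z i ω} ≤
          μ.real {ω | 80000 * ε * S ≤ ∑ i, Z i ω} :=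
        measureReal_mono fun ω hω => (le_of_lt hω : 80000 * ε * S ≤ ∑ i, Z i ω)
      have h3 : 0 < ε * S := by positivity
      refine h2.trans (le_of_mul_le_mul_left ?_ h3)
      nlinarith
  have hsub : {ω | ¬ frob (A - rsvd A (Matrix.of ω)) ≤ (1 + 40000 * ε) * frob (A - B)} ⊆
      (good k (1 - ε) V)ᶜ ∪ {ω | 80000 * ε * S < ∑ i, Z i ω} := by
    intro ω hω
    by_contra hc
    simp only [Set.mem_union, Set.mem_compl_iff, Set.mem_setOf_eq, not_or, not_not, not_lt] at hc
    refine hω ?_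
    have h1 := hmain ω hc.1
    have h5 : (0 : ℝ) ≤ 1 + 40000 * ε := by positivity
    rw [frob, frob, ← Real.sqrt_sq h5, ← Real.sqrt_mul (sq_nonneg _)]
    refine Real.sqrt_le_sqrt ?_
    have h6 := mul_le_mul_of_nonneg_left hSB (sq_nonneg (1 + 40000 * ε))
    nlinarith [hc.2, mul_nonneg (sq_nonneg ε) hS0]
  have h7 := (measureReal_mono (μ := μ) hsub).trans (measureReal_union_le _ _)
  have h8 := good_compl μ _ _ _ h V rfl
  have h9 : μ.real {ω | ¬ frob (A - rsvd A (Matrix.of ω)) ≤ (1 + 40000 * ε) * frob (A - B)} ≤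
      1 / 2 := by nlinarith
  rw [← ofReal_measureReal (measure_ne_top μ _)]
  refine (ENNReal.ofReal_le_ofReal h9).trans (le_of_eq ?_)
  rw [ENNReal.ofReal_div_of_pos (by norm_num)]
  simp

end Pool.Agent.Results.MP_082b65_an.Q2
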